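import Pool.Agent.Q231.LMD.Stubs

set_option autoImplicit false

namespace Pool.Agent.Q164.LMD

open Pool.Agent.Q231.LMD Pool.Agent.NPC Pool.Agent.NPC.Cnt Pool.Agent.H49R2.PC

theorem mem_hubV (E : List Sp) (k : ℕ) : k ∈ hubV E ↔ ∃ e ∈ E, k ∈ hbs e := by
  simp [hubV, List.mem_dedup, List.mem_flatMap]

theorem mem_selV (E : List Sp) (u : ℕ) : u ∈ selV E ↔ ∃ e ∈ E, u ∈ att e := by
  simp [selV, List.mem_dedup, List.mem_flatMap]

/-- the edges of the graph -/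
theorem mem_gE2 (E : List Sp) (p : ℕ × ℕ) : p ∈ (gE E).2 ↔
    (∃ e ∈ E, p = (6 * e.1 + 1, 6 * e.1 + 2) ∨ (∃ u ∈ e.2.1, p = (6 * e.1 + 1, 6 * u)) ∨
      (∃ u ∈ e.2.2.1, p = (6 * e.1 + 2, 6 * u)) ∨
      (∃ k ∈ e.2.2.2, p = (6 * e.1 + 1, 6 * k + 3) ∨ p = (6 * e.1 + 2, 6 * k + 3))) ∨
    ∃ k ∈ hubV E, p = (6 * k + 3, 6 * k + 4) ∨ p = (6 * k + 3, 6 * k + 5) ∨
      p = (6 * k + 4, 6 * k + 5) := by
  unfold gE
  simp only [List.mem_append, List.mem_flatMap, List.mem_cons, List.mem_map, List.not_mem_nil,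
    or_false]
  constructor
  · rintro (⟨e, he, h⟩ | ⟨k, hk, h⟩)
    · left
      refine ⟨e, he, ?_⟩
      rcases h with h | ⟨u, hu, h⟩ | ⟨u, hu, h⟩ | ⟨k, hk, h⟩
      · exact Or.inl h
      · exact Or.inr (Or.inl ⟨u, hu, h.symm⟩)
      · exact Or.inr (Or.inr (Or.inl ⟨u, hu, h.symm⟩))
      · exact Or.inr (Or.inr (Or.inr ⟨k, hk, h⟩))
    · exact Or.inr ⟨k, hk, h⟩
  · rintro (⟨e, he, h⟩ | ⟨k, hk, h⟩)
    · left
      refine ⟨e, he, ?_⟩
      rcases h with h | ⟨u, hu, h⟩ | ⟨u, hu, h⟩ | ⟨k, hk, h⟩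
      · exact Or.inl h
      · exact Or.inr (Or.inl ⟨u, hu, h.symm⟩)
      · exact Or.inr (Or.inr (Or.inl ⟨u, hu, h.symm⟩))
      · exact Or.inr (Or.inr (Or.inr ⟨k, hk, h⟩))
    · exact Or.inr ⟨k, hk, h⟩

theorem gE2_ne (E : List Sp) {p : ℕ × ℕ} (hp : p ∈ (gE E).2) : p.1 ≠ p.2 := by
  rw [mem_gE2] at hp
  rcases hp with ⟨e, he, h | ⟨u, hu, h⟩ | ⟨u, hu, h⟩ | ⟨k, hk, h | h⟩⟩ | ⟨k, hk, h | h | h⟩ <;>
    subst h <;> simp <;> omega

theorem A0_ok : S_A0 := by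
  intro E m n
  unfold sg
  rw [SimpleGraph.fromRel_adj]
  constructor
  · rintro ⟨_, h⟩
    exact h
  · intro h
    refine ⟨?_, h⟩
    rcases h with h | h
    · exact gE2_ne E h
    · exact (gE2_ne E h).symm

theorem A1_ok : S_A1 := by
  intro E hE
  constructor
  · unfold gE
    simp only
    rw [List.append_assoc, List.nodup_append, List.nodup_append]
    refine ⟨?_, ⟨?_, ?_, ?_⟩, ?_⟩
    · exact (List.nodup_dedup _).map (fun a b h => by simpa using h)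
    · rw [List.nodup_flatMap]
      refine ⟨fun e he => by simp, ?_⟩
      have h := hE.nodup
      rw [List.Nodup, List.pairwise_map] at h
      refine h.imp ?_
      intro a b hab
      simp only [Function.onFun, List.disjoint_left, List.mem_cons, List.not_mem_nil, or_false]
      intro c hc hc'
      rcases hc with hc | hc <;> rcases hc' with hc' | hc' <;> omega
    · rw [List.nodup_flatMap]
      refine ⟨fun e he => by simp, ?_⟩
      have h := List.nodup_dedup (E.flatMap hbs)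
      refine h.imp ?_
      intro a b hab
      simp only [Function.onFun, List.disjoint_left, List.mem_cons, List.not_mem_nil, or_false]
      intro c hc hc'
      rcases hc with hc | hc | hc <;> rcases hc' with hc' | hc' | hc' <;> omega
    · intro a ha b hb
      simp only [List.mem_flatMap, List.mem_cons, List.not_mem_nil, or_false] at ha hb
      obtain ⟨e, _, h1⟩ := ha
      obtain ⟨k, _, h2⟩ := hb
      rcases h1 with h1 | h1 <;> rcases h2 with h2 | h2 | h2 <;> omega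
    · intro a ha b hb
      simp only [List.mem_append, List.mem_map, List.mem_flatMap, List.mem_cons, List.not_mem_nil,
        or_false] at ha hb
      obtain ⟨u, _, h1⟩ := ha
      rcases hb with ⟨e, _, h2⟩ | ⟨k, _, h2⟩
      · rcases h2 with h2 | h2 <;> omega
      · rcases h2 with h2 | h2 | h2 <;> omega
  · intro p hp
    refine ⟨?_, ?_, gE2_ne E hp⟩
    all_goals
      rw [mem_gE2] at hp
      unfold gE
      simp only [List.mem_append, List.mem_map, List.mem_flatMap, List.mem_cons, List.not_mem_nil,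
        or_false]
    · rcases hp with ⟨e, he, h | ⟨u, hu, h⟩ | ⟨u, hu, h⟩ | ⟨k, hk, h | h⟩⟩ | ⟨k, hk, h | h | h⟩
      · exact Or.inl (Or.inr ⟨e, he, Or.inl (by rw [h])⟩)
      · exact Or.inl (Or.inr ⟨e, he, Or.inl (by rw [h])⟩)
      · exact Or.inl (Or.inr ⟨e, he, Or.inr (by rw [h])⟩)
      · exact Or.inl (Or.inr ⟨e, he, Or.inl (by rw [h])⟩)
      · exact Or.inl (Or.inr ⟨e, he, Or.inr (by rw [h])⟩)
      · exact Or.inr ⟨k, hk, Or.inl (by rw [h])⟩
      · exact Or.inr ⟨k, hk, Or.inl (by rw [h])⟩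
      · exact Or.inr ⟨k, hk, Or.inr (Or.inl (by rw [h]))⟩
    · rcases hp with ⟨e, he, h | ⟨u, hu, h⟩ | ⟨u, hu, h⟩ | ⟨k, hk, h | h⟩⟩ | ⟨k, hk, h | h | h⟩
      · exact Or.inl (Or.inr ⟨e, he, Or.inr (by rw [h])⟩)
      · exact Or.inl (Or.inl ⟨u, (mem_selV E u).2 ⟨e, he, List.mem_append_left _ hu⟩, by rw [h]⟩)
      · exact Or.inl (Or.inl ⟨u, (mem_selV E u).2 ⟨e, he, List.mem_append_right _ hu⟩, by rw [h]⟩)
      · exact Or.inr ⟨k, (mem_hubV E k).2 ⟨e, he, hk⟩, Or.inl (by rw [h])⟩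
      · exact Or.inr ⟨k, (mem_hubV E k).2 ⟨e, he, hk⟩, Or.inl (by rw [h])⟩
      · exact Or.inr ⟨k, hk, Or.inr (Or.inl (by rw [h]))⟩
      · exact Or.inr ⟨k, hk, Or.inr (Or.inr (by rw [h]))⟩
      · exact Or.inr ⟨k, hk, Or.inr (Or.inr (by rw [h]))⟩

end Pool.Agent.Q164.LMD
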