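import Pool.Agent.Q164.LMD.A1

set_option autoImplicit false

namespace Pool.Agent.Q164.LMD

open Pool.Agent.Q231.LMD Pool.Agent.NPC Pool.Agent.NPC.Cnt Pool.Agent.H49R2.PC

/-- twins: `a` and `b` have the same neighbours outside `{a, b}` -/
theorem edist_le_of_twins {V : Type*} (G : SimpleGraph V) {a b w : V}
    (h : ∀ z, z ≠ a → z ≠ b → G.Adj z a → G.Adj z b) (hwa : w ≠ a) :
    G.edist w b ≤ G.edist w a := by
  by_cases htop : G.edist w a = ⊤
  · rw [htop]; exact le_top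
  · obtain ⟨p, hp⟩ := G.exists_walk_of_edist_ne_top htop
    rw [← hp, ← SimpleGraph.Walk.length_reverse p]
    generalize p.reverse = q
    cases q with
    | nil => exact absurd rfl hwa
    | cons hz r =>
      rename_i z
      by_cases hzb : z = b
      · subst hzb
        calc G.edist w z ≤ r.reverse.length := SimpleGraph.edist_le _
          _ = (r.length : ℕ∞) := by rw [SimpleGraph.Walk.length_reverse]
          _ ≤ _ := by
            rw [SimpleGraph.Walk.length_cons]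
            exact_mod_cast Nat.le_succ _
      · have hza : z ≠ a := hz.ne'
        have hzb' : G.Adj z b := h z hza hzb hz.symm
        calc G.edist w b ≤ (r.reverse.concat hzb').length := SimpleGraph.edist_le _
          _ = (r.length : ℕ∞) + 1 := by
            rw [SimpleGraph.Walk.length_concat, SimpleGraph.Walk.length_reverse]; norm_cast
          _ ≤ _ := by rw [SimpleGraph.Walk.length_cons]; norm_cast

/-- neighbours of a private vertex -/
theorem adj_priv {E : List Sp} {k z : ℕ} (hk : k ∈ hubV E) :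
    ((sg (gE E)).Adj z (6 * k + 4) ↔ z = 6 * k + 3 ∨ z = 6 * k + 5) ∧
    ((sg (gE E)).Adj z (6 * k + 5) ↔ z = 6 * k + 3 ∨ z = 6 * k + 4) := by
  rw [A0_ok, A0_ok]
  simp only [mem_gE2, Prod.mk.injEq]
  constructor
  · constructor
    · rintro ((⟨e, he, h | ⟨u, hu, h⟩ | ⟨u, hu, h⟩ | ⟨j, hj, h | h⟩⟩ | ⟨j, hj, h | h | h⟩) |
        (⟨e, he, h | ⟨u, hu, h⟩ | ⟨u, hu, h⟩ | ⟨j, hj, h | h⟩⟩ | ⟨j, hj, h | h | h⟩)) <;> omega
    · rintro (rfl | rfl)
      · exact Or.inl (Or.inr ⟨k, hk, Or.inl ⟨rfl, rfl⟩⟩)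
      · exact Or.inr (Or.inr ⟨k, hk, Or.inr (Or.inr ⟨rfl, rfl⟩)⟩)
  · constructor
    · rintro ((⟨e, he, h | ⟨u, hu, h⟩ | ⟨u, hu, h⟩ | ⟨j, hj, h | h⟩⟩ | ⟨j, hj, h | h | h⟩) |
        (⟨e, he, h | ⟨u, hu, h⟩ | ⟨u, hu, h⟩ | ⟨j, hj, h | h⟩⟩ | ⟨j, hj, h | h | h⟩)) <;> omega
    · rintro (rfl | rfl)
      · exact Or.inl (Or.inr ⟨k, hk, Or.inr (Or.inl ⟨rfl, rfl⟩)⟩)
      · exact Or.inl (Or.inr ⟨k, hk, Or.inr (Or.inr ⟨rfl, rfl⟩)⟩)

theorem A3a_ok : S_A3a := by
  intro E k w hk h4 h5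
  apply le_antisymm
  · apply edist_le_of_twins _ _ h5
    intro z hz5 hz4 h
    rw [(adj_priv hk).2] at h
    rw [(adj_priv hk).1]
    rcases h with h | h
    · exact Or.inl h
    · exact absurd h hz4
  · apply edist_le_of_twins _ _ h4
    intro z hz4 hz5 h
    rw [(adj_priv hk).1] at h
    rw [(adj_priv hk).2]
    rcases h with h | h
    · exact Or.inl h
    · exact absurd h hz5

end Pool.Agent.Q164.LMD
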