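import Pool.Agent.Q231.LMD.Stubs

set_option autoImplicit false

namespace Pool.Agent.Q164.LMD

open Pool.Agent.Q231.LMD Pool.Agent.NPC Pool.Agent.NPC.Cnt Pool.Agent.H49R2.PC

theorem vl_inj {x y t x' y' t' : ℕ} (h : vl x y t = vl x' y' t') : x = x' ∧ y = y' ∧ t = t' := by
  unfold vl at h
  rw [Nat.pair_eq_pair, Nat.pair_eq_pair] at h
  exact ⟨h.1.1, h.1.2, h.2⟩

theorem tab_hubs : ∀ t < 27, (tabE t).2.2 ≠ [] := by decide

theorem tab_disj : ∀ t < 27, (tabE t).1.2.2 ≠ (tabE t).2.1.2.2 := by decide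

theorem att_spL {L : List Pt} {p : Pt} {t u : ℕ} (h : u ∈ att (spL L p t)) :
    ∃ o ∈ [(tabE t).1, (tabE t).2.1], u = sh p o := by
  unfold att spL at h
  simp only [List.mem_append, List.mem_singleton] at h
  rcases h with h | h
  · exact ⟨(tabE t).1, by simp, h⟩
  · split_ifs at h
    · simp at h
    · exact ⟨(tabE t).2.1, by simp, by simpa using h⟩

theorem G3i_ok : S_G3i := by
  intro g1 g2 L K hLK
  obtain ⟨hnd, hkind⟩ := g1 L K hLK
  constructor
  · unfold EL
    rw [List.map_map]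
    apply hnd.map_on
    intro i hi j hj h
    simp only [Function.comp, spL] at h
    obtain ⟨h1, h2, h3⟩ := vl_inj h
    exact Prod.ext (Prod.ext h1 h2) h3
  · intro e he
    unfold EL at he
    obtain ⟨i, hi, rfl⟩ := List.mem_map.1 he
    simp [att, spL]
  · intro e he
    unfold EL at he
    obtain ⟨i, hi, rfl⟩ := List.mem_map.1 he
    have := tab_hubs i.2 (hkind i hi)
    simpa [hbs, spL] using this
  · intro e he u hu hu'
    unfold EL at he
    obtain ⟨i, hi, rfl⟩ := List.mem_map.1 he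
    have hd := tab_disj i.2 (hkind i hi)
    simp only [spL, List.mem_singleton] at hu hu'
    split_ifs at hu'
    · simp at hu'
    · rw [List.mem_singleton] at hu'
      rw [hu] at hu'
      exact hd (vl_inj hu').2.2
  · intro e he e' he' hne u hu hu'
    unfold EL at he he'
    obtain ⟨i, hi, rfl⟩ := List.mem_map.1 he
    obtain ⟨j, hj, rfl⟩ := List.mem_map.1 he'
    obtain ⟨o, ho, h1⟩ := att_spL hu
    obtain ⟨o', ho', h2⟩ := att_spL hu'
    rw [h1] at h2
    obtain ⟨ha, hb, hc⟩ := vl_inj h2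
    rcases g2 i.2 (hkind i hi) j.2 (hkind j hj) o ho o' ho' hc with ⟨h3, h4⟩ | ⟨h, hh, h', hh', h5, h6, h7⟩
    · exfalso
      apply hne
      have h8 : i.1 = j.1 := by
        subst h4
        exact Prod.ext (by omega) (by omega)
      rw [h8, h3]
    · refine ⟨sh i.1 h, List.mem_map.2 ⟨h, hh, rfl⟩, List.mem_map.2 ⟨h', hh', ?_⟩⟩
      unfold sh
      rw [h5, show j.1.1 + h'.1 = i.1.1 + h.1 by omega, show j.1.2 + h'.2.1 = i.1.2 + h.2.1 by omega]

end Pool.Agent.Q164.LMD
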